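import Pool.Agent.P.MP_9167e9_an.StG

/-! Module BLK: the blocks of one stage. -/

noncomputable section
open scoped Classical ENNReal

namespace Pool.Agent.P.MP_9167e9_an

namespace BlkM

variable {P : Prm} {F : Set (Cell P)}

/-- The facts on an admissible family that are used here. -/
structure Ctx (F : Set (Cell P)) : Prop where
  adm : Adm F
  g1 : Gam1 F
  nf : NFOut F
  bas : ∀ c ∈ F, BasOut c
  num : ∀ c ∈ F, NumOut c
  add : ∀ c ∈ F, ∀ δ a b, cwd F c δ (a + b) = cwd F c δ a * cwd F c δ b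
  single : ∀ c ∈ F, ∀ δ e t, cwd F c δ (Pi.single e t) = lmp (adj F) (ed F c δ e) t

theorem cwd_zero (H : Ctx F) {c : Cell P} (hc : c ∈ F) (δ : Gam F) : cwd F c δ 0 = 1 := by
  have := H.add c hc δ 0 0
  rw [add_zero] at this
  exact left_eq_mul.1 this

/-- A homomorphism sending core lamps to core lamps sends configurations to configurations. -/
theorem transfer (H : Ctx F) {c : Cell P} (hc : c ∈ F) (δ δ' : Gam F) (Φ : NN F →* NN F)
    (h : ∀ e t, ∃ e', Φ (lampN F (ed F c δ e) t) = lampN F (ed F c δ' e') t)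
    (a : (c.V × Fin P.j) × ZMod 2 → ZMod P.h) :
    ∃ a', Φ (mkN F (cwd F c δ a)) = mkN F (cwd F c δ' a') := by
  induction a using Pi.single_induction with
  | zero => exact ⟨0, by rw [cwd_zero H hc, cwd_zero H hc, map_one, map_one]⟩
  | add a b ha hb =>
    obtain ⟨a', ha⟩ := ha
    obtain ⟨b', hb⟩ := hb
    exact ⟨a' + b', by rw [H.add c hc, H.add c hc, map_mul, map_mul, map_mul, ha, hb]⟩
  | single e t =>
    obtain ⟨e', he⟩ := h e t
    exact ⟨Pi.single e' t, by rw [H.single c hc, H.single c hc]; exact he⟩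

theorem transfer_P (H : Ctx F) {c : Cell P} (hc : c ∈ F) {p : FreeGroup P.S} (hp : p ∈ c.Pg)
    (δ : Gam F) (a : (c.V × Fin P.j) × ZMod 2 → ZMod P.h) :
    ∃ a', mkN F (cwd F c δ a) = mkN F (cwd F c (mkG F p * δ) a') := by
  refine transfer H hc δ _ (MonoidHom.id _) (fun e t => ⟨(e.1, e.2 - pr p), ?_⟩) a
  simp only [MonoidHom.id_apply, ed]
  rw [← mul_assoc, H.g1.pos_P c hc p hp]
  simp

/-- Two points of `Γ × N` lie in one block. -/
def Rel (Deep : Cell P → Gam F → Gam F → Prop) (x y : Gam F × NN F) : Prop :=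
  ∃ c δ, Deep c δ x.1 ∧ Deep c δ y.1 ∧ ∃ a, y.2 = mkN F (cwd F c δ a) * x.2

variable {c0 : Cell P} {Deep : Cell P → Gam F → Gam F → Prop} {par : Gam F → Option (Lm F)}

theorem rel_norm (H : Ctx F) (D : DeOut F c0 Deep par) {c : Cell P} {δ : Gam F}
    {x y : Gam F × NN F} (hx : Deep c δ x.1) (h : Rel Deep x y) :
    Deep c δ y.1 ∧ ∃ a, y.2 = mkN F (cwd F c δ a) * x.2 := by
  obtain ⟨c', δ', h1, h2, a, h3⟩ := h
  obtain ⟨rfl, p, hp, rfl⟩ := D.disj _ _ _ _ _ h1 hx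
  obtain ⟨a', ha⟩ := transfer_P H (D.mem _ _ _ h1).1 hp δ' a
  exact ⟨D.inv _ p hp _ _ h2, a', by rw [h3, ha]⟩

theorem rel_symm (H : Ctx F) (D : DeOut F c0 Deep par) {x y : Gam F × NN F} (h : Rel Deep x y) :
    Rel Deep y x := by
  obtain ⟨c, δ, h1, h2, a, h3⟩ := h
  have hc := (D.mem _ _ _ h1).1
  refine ⟨c, δ, h2, h1, -a, ?_⟩
  rw [h3, ← mul_assoc, ← map_mul, ← H.add c hc, neg_add_cancel, cwd_zero H hc, map_one, one_mul]

theorem rel_trans (H : Ctx F) (D : DeOut F c0 Deep par) {x y z : Gam F × NN F}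
    (h : Rel Deep x y) (h' : Rel Deep y z) : Rel Deep x z := by
  obtain ⟨c, δ, h1, h2, a, h3⟩ := h
  obtain ⟨h4, a', h5⟩ := rel_norm H D h2 h'
  refine ⟨c, δ, h1, h4, a' + a, ?_⟩
  rw [h5, h3, H.add c (D.mem _ _ _ h1).1, map_mul, mul_assoc]

theorem rel_fin (H : Ctx F) (D : DeOut F c0 Deep par) (x : Gam F × NN F) :
    {y | Rel Deep x y}.Finite := by
  rcases Set.eq_empty_or_nonempty {y | Rel Deep x y} with h | ⟨_, c, δ, h1, -⟩
  · rw [h]; exact Set.finite_empty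
  have : NeZero P.h := ⟨H.adm.prime.ne_zero⟩
  refine (Set.finite_range fun z : (c.V × ZMod 2) × ((c.V × Fin P.j) × ZMod 2 → ZMod P.h) =>
    (pos F c z.1 * δ, mkN F (cwd F c δ z.2) * x.2)).subset fun y hy => ?_
  obtain ⟨h2, a, h3⟩ := rel_norm H D h1 hy
  obtain ⟨-, d, hd⟩ := D.mem _ _ _ h2
  exact ⟨(d, a), Prod.ext hd.symm h3.symm⟩

/-- Copies of cores. -/
def Ix (F : Set (Cell P)) : Type :=
  {x : ℕ × Set (Gam F) // ∃ c ∈ F, ∃ δ, x = (c.R, {γ | ∃ p ∈ c.Pg, γ = mkG F p * δ})}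

/-- The cell of a copy. -/
def ce (β : Ix F) : Cell P := β.2.choose

theorem ce_mem (β : Ix F) : ce β ∈ F := β.2.choose_spec.1

/-- The chosen translation of a copy. -/
def de (β : Ix F) : Gam F := β.2.choose_spec.2.choose

theorem spec (β : Ix F) : β.1 = ((ce β).R, {γ | ∃ p ∈ (ce β).Pg, γ = mkG F p * de β}) :=
  β.2.choose_spec.2.choose_spec

theorem ix_ex (hF : Adm F) {c : Cell P} (hc : c ∈ F) (δ : Gam F) :
    ∃ β : Ix F, ce β = c ∧ ∃ p ∈ c.Pg, de β = mkG F p * δ := by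
  let β : Ix F := ⟨(c.R, {γ | ∃ p ∈ c.Pg, γ = mkG F p * δ}), c, hc, δ, rfl⟩
  have h := spec β
  refine ⟨β, hF.inj _ (ce_mem β) _ hc (congrArg Prod.fst h).symm, ?_⟩
  have h2 : {γ | ∃ p ∈ c.Pg, γ = mkG F p * δ} = {γ | ∃ p ∈ (ce β).Pg, γ = mkG F p * de β} :=
    congrArg Prod.snd h
  have h3 : de β ∈ {γ | ∃ p ∈ (ce β).Pg, γ = mkG F p * de β} := ⟨1, one_mem _, by simp⟩
  rwa [← h2] at h3

theorem ix_ext {β β' : Ix F} (h : ce β = ce β') {p : FreeGroup P.S} (hp : p ∈ (ce β).Pg)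
    (h' : de β' = mkG F p * de β) : β = β' := by
  refine Subtype.ext ?_
  rw [spec β, spec β', ← h, h']
  refine Prod.ext rfl (Set.ext fun γ => ⟨?_, ?_⟩)
  · rintro ⟨q, hq, rfl⟩
    exact ⟨q * p⁻¹, mul_mem hq (inv_mem hp), by simp [mul_assoc]⟩
  · rintro ⟨q, hq, rfl⟩
    exact ⟨q * p, mul_mem hq hp, by simp [mul_assoc]⟩

/-- The moves. -/
def mv (F : Set (Cell P)) (s : P.S) : Equiv.Perm (Gam F) := Equiv.mulLeft (mkG F (FreeGroup.of s))

/-- The lamps as homomorphisms. -/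
def lamp (H : Ctx F) (γ : Gam F) (s : P.S) : Multiplicative (ZMod P.h) →* NN F :=
  MonoidHom.mk' (fun t => lampN F (γ, s) t.toAdd) fun _ _ => H.nf.lamp_add _ _ _

/-- The block of a copy. -/
def blkOf (H : Ctx F) (D : DeOut F c0 Deep par) {B : ℕ} (hB : ∀ c ∈ F, B ≤ c.R) (c : Cell P)
    (hc : c ∈ F) (δ : Gam F) : Blk P.slot (mv F) (lamp H) (1 / 10 ^ 8) B where
  V := c.V
  fin := c.fin
  τ := c.τ
  gap := (H.adm.ok c hc).gap
  W := c.W
  code := (H.adm.ok c hc).code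
  pos d := pos F c d * δ
  pos_inj a b h := by
    have h1 : pos F c a = pos F c b := mul_right_cancel h
    refine (H.bas c hc).ht.d_zero a b ?_
    have h2 := H.g1.dG_le (pos F c b) 1
    rw [map_one, one_mul] at h2
    rw [← H.g1.pos_d c hc, h1]
    exact Nat.le_zero.1 h2
  lab := c.lab
  lab_slot := (H.adm.ok c hc).lab_slot
  pos_mv v i e := by
    rw [← H.g1.pos_mv c hc v i e, mul_assoc]
    rfl
  ψ := MonoidHom.mk' (fun a => mkN F (cwd F c δ a.toAdd)) fun a b => by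
    rw [toAdd_mul, H.add c hc, map_mul]
  ψ_single v i e t := congrArg (mkN F) (H.single c hc δ ((v, i), e) t)
  ψ_ker a := H.nf.ker c hc δ a
  De := {d | Deep c δ (pos F c d * δ)}
  De_big := by
    have h1 := D.small c hc δ
    have h2 := (H.num c hc).θc_V
    rw [Nat.card_eq_fintype_card (α := c.V)]
    exact (Nat.mul_le_mul (hB c hc) h1).trans h2

theorem rel_iff (H : Ctx F) (D : DeOut F c0 Deep par) {B : ℕ} (hB : ∀ c ∈ F, B ≤ c.R)
    (x y : Gam F × NN F) : Rel Deep x y ↔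
      ∃ β : Ix F, ∃ d ∈ (blkOf H D hB _ (ce_mem β) (de β)).De,
        ∃ d' ∈ (blkOf H D hB _ (ce_mem β) (de β)).De,
        x.1 = (blkOf H D hB _ (ce_mem β) (de β)).pos d ∧
        y.1 = (blkOf H D hB _ (ce_mem β) (de β)).pos d' ∧
        ∃ a, y.2 = (blkOf H D hB _ (ce_mem β) (de β)).ψ a * x.2 := by
  constructor
  · intro h
    obtain ⟨c, δ, h1, -⟩ := id h
    obtain ⟨β, rfl, p, hp, hβ⟩ := ix_ex H.adm (D.mem _ _ _ h1).1 δ
    have h2 : Deep (ce β) (de β) x.1 := hβ ▸ D.inv _ p hp _ _ h1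
    obtain ⟨h3, a, h4⟩ := rel_norm H D h2 h
    obtain ⟨-, d, hd⟩ := D.mem _ _ _ h2
    obtain ⟨-, d', hd'⟩ := D.mem _ _ _ h3
    refine ⟨β, d, ?_, d', ?_, hd, hd', Multiplicative.ofAdd a, h4⟩
    · change Deep (ce β) (de β) (pos F (ce β) d * de β)
      rwa [← hd]
    · change Deep (ce β) (de β) (pos F (ce β) d' * de β)
      rwa [← hd']
  · rintro ⟨β, d, h1, d', h2, h3, h4, a, h5⟩
    refine ⟨ce β, de β, ?_, ?_, a.toAdd, h5⟩
    · rw [h3]; exact h1
    · rw [h4]; exact h2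

theorem parent (H : Ctx F) (D : DeOut F c0 Deep par) {B : ℕ} (hB : ∀ c ∈ F, B ≤ c.R)
    (γ : Gam F) (s : P.S) :
    (∃ β : Ix F, ∃ v i x, (v, x) ∈ (blkOf H D hB _ (ce_mem β) (de β)).De ∧
      (((blkOf H D hB _ (ce_mem β) (de β)).τ i)⁻¹ v, x + 1) ∈
        (blkOf H D hB _ (ce_mem β) (de β)).De ∧
      γ = (blkOf H D hB _ (ce_mem β) (de β)).pos (v, x) ∧
      s = (blkOf H D hB _ (ce_mem β) (de β)).lab v i) ∨
    par γ = some (γ, s) ∨ par ((mv F s)⁻¹ γ) = some (γ, s) := by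
  rcases D.parent γ s with ⟨c, δ, v, i, x, h1, h2, h3, h4⟩ | h
  · have hc := (D.mem _ _ _ h1).1
    obtain ⟨β, rfl, p, hp, hβ⟩ := ix_ex H.adm hc δ
    have key : ∀ u y, pos F (ce β) (u, y - pr p) * de β = pos F (ce β) (u, y) * δ := by
      intro u y
      rw [hβ, ← mul_assoc, H.g1.pos_P _ hc p hp]
      simp
    refine Or.inl ⟨β, v, i, x - pr p, ?_, ?_, h3.trans (key v x).symm, h4⟩
    · change Deep (ce β) (de β) (pos F (ce β) (v, x - pr p) * de β)
      rw [key, hβ]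
      exact D.inv _ p hp _ _ h1
    · change Deep (ce β) (de β) (pos F (ce β) (((ce β).τ i)⁻¹ v, x - pr p + 1) * de β)
      rw [sub_add_eq_add_sub, key, hβ]
      exact D.inv _ p hp _ _ h2
  · exact Or.inr h

end BlkM

open BlkM in
theorem pBlk (hSpec : StSpec) (hDe : StDe) (hPW : StPW) (hNF : StNF) (hG1 : StGam1)
    (hBas : StBas) (hNum : StNum) : StBlk := by
  intro p _ hp2 hp
  obtain ⟨T, B, j0, hS⟩ := hSpec p (1 / 10 ^ 8) (1 / 10 ^ 6) hp2 hp (by norm_num) (by norm_num)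
    (by norm_num)
  refine ⟨T, B, j0, ?_⟩
  intro P F G _ ρ e Φ hF hG hj hS1 hS2 hB c hc ι hι _
  obtain ⟨w, hw⟩ := hPW P F hF
  have H : Ctx F := ⟨hF, hG1 P F hF, hNF P F hF,
    fun c hc => hBas P c (le_trans (by norm_num) hF.j_big) (hF.ok c hc), (hNum P F hF).one,
    hw.cwd_add, hw.cwd_single⟩
  obtain ⟨Deep, par, D⟩ := hDe P F hF c hc
  have hfin : ∀ g, {g' | Rel Deep (e g) (e g')}.Finite := fun g =>
    Set.Finite.preimage (f := e) e.injective.injOn (rel_fin H D (e g))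
  have hm : ∀ g g', g' ∈ (hfin g).toFinset ↔ Rel Deep (e g) (e g') := fun g g' =>
    (hfin g).mem_toFinset
  have he1 : e 1 = (1, 1) := by
    have h := hG.mul 1 1
    rw [mul_one] at h
    have h1 : (e 1).1 = 1 := left_eq_mul.1 (congrArg Prod.fst h)
    have h2 := congrArg Prod.snd h
    rw [h1, hG.Φ_one] at h2
    exact Prod.ext h1 (left_eq_mul.1 h2)
  refine ⟨fun g => (hfin g).toFinset, fun g g' h => ?_, fun g g' h => ?_, fun a g g' ha h => ?_,
    fun g g' h => ?_, ?_, ?_⟩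
  · rw [hm] at h
    ext g''
    rw [hm, hm]
    exact ⟨rel_trans H D h, rel_trans H D (rel_symm H D h)⟩
  · rw [hm] at h ⊢
    exact rel_trans H D h (rel_symm H D h)
  · rw [hm] at h ⊢
    obtain ⟨c', δ, h1, h2, b, h3⟩ := h
    rw [hG.mul, hG.mul, ha, mul_one, mul_one, hG.Φ_one, hG.Φ_one]
    exact ⟨c', δ, h1, h2, b, by rw [h3, mul_assoc]⟩
  · rw [hm] at h ⊢
    obtain ⟨c', δ, h1, h2, b, h3⟩ := h
    rw [hG.mul, hG.mul, e.apply_symm_apply, mul_one, mul_one]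
    obtain ⟨b', hb⟩ := transfer H (D.mem _ _ _ h1).1 δ (δ * mkG F ι) (Φ (mkG F ι))
      (fun f t => ⟨f, by rw [hG.Φ_lamp]; simp only [ed, mul_assoc]⟩) b
    exact ⟨c', δ * mkG F ι, D.equi ι hι _ _ _ h1, D.equi ι hι _ _ _ h2, b', by
      rw [h3, map_mul, hb]⟩
  · rw [hm, he1, e.apply_symm_apply]
    have h1 := D.base (c.cp 1)
    have h2 := D.base (c.cp ι)
    rw [H.g1.pos_cp c hc 1 Cell.Qc.one, map_one] at h1
    rw [H.g1.pos_cp c hc ι (((H.bas c hc).memP ι).1 hι).1] at h2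
    exact ⟨c, 1, h1, h2, 0, by rw [cwd_zero H hc, map_one, mul_one]⟩
  · refine hS P.j P.h P.S (Gam F) (NN F) G P.slot (mv F) (lamp H) ρ e (Ix F)
      (fun β => blkOf H D hB _ (ce_mem β) (de β)) par _ hj hF.prime hS1 hS2 (fun s g => ?_)
      (fun s g => ?_) (fun γ i => ?_) (fun β β' d d' h1 h2 h3 => ?_) (parent H D hB)
      fun g g' => (hm g g').trans (rel_iff H D hB _ _)
    · rw [hG.mul, hG.inl, map_one, one_mul]
      rfl
    · rw [hG.mul, hG.inr, one_mul, hG.Φ_lamp, one_mul]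
      rfl
    · obtain ⟨Pa, h1, h2⟩ := H.nf.free γ i
      exact ⟨Pa, fun s n t hs hn ht => h1 s n t.toAdd hs hn ht, h2⟩
    · have h4 : Deep (ce β') (de β') (pos F (ce β) d * de β) := by
        rw [show pos F (ce β) d * de β = pos F (ce β') d' * de β' from h3]
        exact h2
      obtain ⟨h5, q, hq, h6⟩ := D.disj _ _ _ _ _ h1 h4
      exact ix_ext h5 hq h6

end Pool.Agent.P.MP_9167e9_an
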